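import Mathlib
import Pool.Agent.H177R2.SD.Small
import Pool.Agent.H177R2.SD.Brc

set_option autoImplicit false

namespace Pool.Agent.Results.MP_c38931_co.DensityZero

open Finset Filter Topology Pool.Agent.H177R2.SD

/-- counting flags: every point of a symmetric design lies on exactly `k` blocks -/
theorem repl (v k lam : ℕ) (hv : 2 ≤ v) (hlam : 1 ≤ lam) (B : Fin v → Finset (Fin v))
    (hk : ∀ i, (B i).card = k)
    (hp : ∀ x y : Fin v, x ≠ y →
      (Finset.univ.filter (fun i => x ∈ B i ∧ y ∈ B i)).card = lam) :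
    (∀ x, (Finset.univ.filter (fun i => x ∈ B i)).card = k) ∧ k * k = lam * (v - 1) + k := by
  classical
  have h1 : ∀ x, (Finset.univ.filter (fun i => x ∈ B i)).card * k
      = (Finset.univ.filter (fun i => x ∈ B i)).card + lam * (v - 1) := by
    intro x
    have e1 : ∑ y : Fin v, (Finset.univ.filter (fun i => x ∈ B i ∧ y ∈ B i)).card
        = (Finset.univ.filter (fun i => x ∈ B i)).card * k := by
      simp_rw [Finset.card_filter]
      rw [Finset.sum_comm, Finset.sum_mul]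
      refine Finset.sum_congr rfl fun i _ => ?_
      by_cases hx : x ∈ B i
      · simp [hx, hk i]
      · simp [hx]
    rw [← e1, ← Finset.add_sum_erase _ _ (Finset.mem_univ x)]
    congr 1
    · simp
    · rw [Finset.sum_congr rfl (g := fun _ => lam)]
      · simp [Finset.card_erase_of_mem, mul_comm]
      · intro y hy
        exact hp x y (Finset.ne_of_mem_erase hy).symm
  have hpos : 1 ≤ lam * (v - 1) := by
    have : 1 ≤ v - 1 := by omega
    exact Nat.mul_pos hlam this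
  set r : Fin v → ℕ := fun x => (Finset.univ.filter (fun i => x ∈ B i)).card with hr
  have hk2 : 2 ≤ k := by
    by_contra hcon
    have h2 := h1 ⟨0, by omega⟩
    interval_cases k <;> simp at h2 <;> omega
  have hconst : ∀ x y, r x = r y := by
    intro x y
    have hx := h1 x
    have hy := h1 y
    obtain ⟨k', rfl⟩ : ∃ k', k = k' + 1 := ⟨k - 1, by omega⟩
    have hx' : r x * k' = lam * (v - 1) := by
      have : r x * (k' + 1) = r x + lam * (v - 1) := hx
      rw [mul_add, mul_one] at this; omega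
    have hy' : r y * k' = lam * (v - 1) := by
      have : r y * (k' + 1) = r y + lam * (v - 1) := hy
      rw [mul_add, mul_one] at this; omega
    have : r x * k' = r y * k' := by rw [hx', hy']
    exact Nat.eq_of_mul_eq_mul_right (by omega) this
  have hsum : ∑ x, r x = v * k := by
    simp only [hr]
    simp_rw [Finset.card_filter]
    rw [Finset.sum_comm]
    rw [Finset.sum_congr rfl (g := fun _ => k)]
    · simp
    · intro i _
      rw [← hk i]; simp
  have hrk : ∀ x, r x = k := by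
    intro x
    have : ∑ y, r y = v * r x := by
      rw [Finset.sum_congr rfl (g := fun _ => r x) (fun y _ => hconst y x)]; simp
    rw [this] at hsum
    exact Nat.eq_of_mul_eq_mul_left (by omega) hsum
  refine ⟨hrk, ?_⟩
  have h2 := h1 ⟨0, by omega⟩
  have h3 := hrk ⟨0, by omega⟩
  simp only [hr] at h3
  rw [h3] at h2
  omega

/-- `0` when `p` divides `n` exactly once, `1` otherwise -/
noncomputable def oneF (p n : ℕ) : ℝ := if p ∣ n ∧ ¬ p ^ 2 ∣ n then 0 else 1

theorem oneF_mem (p n : ℕ) : 0 ≤ oneF p n ∧ oneF p n ≤ 1 := by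
  unfold oneF
  split_ifs <;> norm_num

theorem oneF_per (p n : ℕ) : oneF p (n + p ^ 2) = oneF p n := by
  unfold oneF
  have h1 : p ∣ n + p ^ 2 ↔ p ∣ n := Nat.dvd_add_left (dvd_pow_self p two_ne_zero)
  have h2 : p ^ 2 ∣ n + p ^ 2 ↔ p ^ 2 ∣ n := Nat.dvd_add_left (dvd_refl _)
  simp only [h1, h2]

theorem one_card {p : ℕ} (hp : p.Prime) :
    p - 1 ≤ ((range (p ^ 2)).filter fun n => p ∣ n ∧ ¬ p ^ 2 ∣ n).card := by
  calc p - 1 = (Icc 1 (p - 1)).card := by simp
    _ = ((Icc 1 (p - 1)).image (fun j => p * j)).card :=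
        (card_image_of_injective _ (fun a b h => Nat.eq_of_mul_eq_mul_left hp.pos h)).symm
    _ ≤ _ := by
        refine card_le_card ?_
        intro n hn
        simp only [mem_image, mem_Icc] at hn
        obtain ⟨j, hj, rfl⟩ := hn
        have hp1 := hp.two_le
        simp only [mem_filter, mem_range]
        refine ⟨?_, Dvd.intro _ rfl, ?_⟩
        · rw [pow_two]; exact Nat.mul_lt_mul_of_pos_left (by omega) hp.pos
        · rw [pow_two]
          intro h
          have := Nat.le_of_dvd (by omega) (Nat.dvd_of_mul_dvd_mul_left hp.pos h)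
          omega

theorem oneF_mean {p : ℕ} (hp : p.Prime) :
    (∑ n ∈ range (p ^ 2), oneF p n) / ((p ^ 2 : ℕ) : ℝ) ≤ Real.exp (-(1 / 2 * (1 / (p : ℝ)))) := by
  have hcard := one_card hp
  have hp2 : 2 ≤ p := hp.two_le
  have hp0 : (0 : ℝ) < p := by exact_mod_cast hp.pos
  have hsum : ∑ n ∈ range (p ^ 2), oneF p n =
      (p : ℝ) ^ 2 - ((range (p ^ 2)).filter fun n => p ∣ n ∧ ¬ p ^ 2 ∣ n).card := by
    have h1 : ∀ n, oneF p n = 1 - (if p ∣ n ∧ ¬ p ^ 2 ∣ n then (1 : ℝ) else 0) := by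
      intro n
      unfold oneF
      split_ifs <;> norm_num
    simp_rw [h1]
    rw [sum_sub_distrib, sum_boole]
    simp
  have hc : ((p : ℝ) - 1) ≤ ((range (p ^ 2)).filter fun n => p ∣ n ∧ ¬ p ^ 2 ∣ n).card := by
    have h : ((p - 1 : ℕ) : ℝ) ≤ ((range (p ^ 2)).filter fun n => p ∣ n ∧ ¬ p ^ 2 ∣ n).card := by
        exact_mod_cast hcard
    rwa [Nat.cast_sub (by omega), Nat.cast_one] at h
  have hpr : (2 : ℝ) ≤ p := by exact_mod_cast hp2
  calc (∑ n ∈ range (p ^ 2), oneF p n) / ((p ^ 2 : ℕ) : ℝ)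
      ≤ ((p : ℝ) ^ 2 - (p - 1)) / ((p ^ 2 : ℕ) : ℝ) := by
        rw [hsum]
        gcongr
    _ = 1 - (p - 1) / (p : ℝ) ^ 2 := by
        push_cast
        field_simp
    _ ≤ 1 - (1 / 2 * (1 / (p : ℝ))) := by
        have : (1 / 2 * (1 / (p : ℝ))) ≤ (p - 1) / (p : ℝ) ^ 2 := by
          rw [div_mul_div_comm, div_le_div_iff₀ (by positivity) (by positivity)]
          nlinarith
        linarith
    _ ≤ Real.exp (-(1 / 2 * (1 / (p : ℝ)))) := by
        have := Real.add_one_le_exp (-(1 / 2 * (1 / (p : ℝ))))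
        linarith

/-- the sieve: numbers without a prime of `K` as exact divisor -/
theorem sieve (K : Finset ℕ) (hK : ∀ p ∈ K, p.Prime) (X : ℕ) :
    (((range X).filter fun n => ∀ p ∈ K, ¬ (p ∣ n ∧ ¬ p ^ 2 ∣ n)).card : ℝ)
      ≤ X * Real.exp (-(1 / 2 * ∑ p ∈ K, 1 / (p : ℝ))) + ∏ p ∈ K, ((p ^ 2 : ℕ) : ℝ) := by
  classical
  have h := avg1 K (fun p => p ^ 2) (fun p hp => pow_pos (hK p hp).pos 2)
    (by
      intro p hp p' hp' hne
      exact Nat.Coprime.pow 2 2 ((Nat.coprime_primes (hK p hp) (hK p' hp')).2 hne))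
    oneF (fun p _ n => oneF_mem p n) (fun p _ n => oneF_per p n) 0 X
  have h2 : (((range X).filter fun n => ∀ p ∈ K, ¬ (p ∣ n ∧ ¬ p ^ 2 ∣ n)).card : ℝ)
      ≤ ∑ n ∈ Ico 0 (0 + X), ∏ p ∈ K, oneF p n := by
    rw [← Finset.sum_boole, zero_add, ← Finset.range_eq_Ico]
    refine Finset.sum_le_sum fun n _ => ?_
    split_ifs with hn
    · refine le_of_eq ?_
      symm
      refine Finset.prod_eq_one fun p hp => ?_
      unfold oneF
      rw [if_neg (hn p hp)]
    · exact Finset.prod_nonneg fun p _ => (oneF_mem p n).1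
  have h3 : ∏ p ∈ K, ((∑ n ∈ range (p ^ 2), oneF p n) / ((p ^ 2 : ℕ) : ℝ))
      ≤ Real.exp (-(1 / 2 * ∑ p ∈ K, 1 / (p : ℝ))) := by
    rw [Finset.mul_sum, ← Finset.sum_neg_distrib, Real.exp_sum]
    refine Finset.prod_le_prod (fun p hp => ?_) (fun p hp => oneF_mean (hK p hp))
    exact div_nonneg (Finset.sum_nonneg fun n _ => (oneF_mem p n).1) (by positivity)
  have h4 := (abs_le.mp h).2
  have h5 : (X : ℝ) * ∏ p ∈ K, ((∑ n ∈ range (p ^ 2), oneF p n) / ((p ^ 2 : ℕ) : ℝ))
      ≤ X * Real.exp (-(1 / 2 * ∑ p ∈ K, 1 / (p : ℝ))) :=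
    mul_le_mul_of_nonneg_left h3 (by positivity)
  linarith

open Classical in
/-- For a fixed `lam ≥ 1`, the block sizes `k` of symmetric `(v, k, lam)` designs with `2 ≤ k < v` and
`lam` not a perfect square or `v % 4 ≠ 1` form a set of natural density zero. -/
theorem result (lam : ℕ) (hlam : 1 ≤ lam) :
    Tendsto (fun X : ℕ => (((range X).filter fun k => ∃ (v : ℕ) (B : Fin v → Finset (Fin v)),
        2 ≤ k ∧ k < v ∧ (∀ i, (B i).card = k) ∧
        (∀ x y : Fin v, x ≠ y →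
          (Finset.univ.filter (fun i => x ∈ B i ∧ y ∈ B i)).card = lam) ∧
        (¬ IsSquare lam ∨ v % 4 ≠ 1)).card : ℝ) / X) atTop (𝓝 0) := by
  -- the two sets of primes
  rw [Metric.tendsto_atTop]
  intro ε hε
  obtain ⟨L, hL⟩ : ∃ L : ℝ, Real.exp (-(1 / 2 * L)) < ε / 8 := by
    have h1 : Tendsto (fun L : ℝ => Real.exp (-(1 / 2 * L))) atTop (𝓝 0) := by
      refine Real.tendsto_exp_neg_atTop_nhds_zero.comp ?_
      exact tendsto_id.const_mul_atTop (by norm_num)
    exact (h1.eventually_lt_const (by positivity)).exists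
  have hneg : ¬ IsSquare (-(lam : ℤ)) := by
    rintro ⟨r, hr⟩
    have := mul_self_nonneg r
    have : (1 : ℤ) ≤ lam := by exact_mod_cast hlam
    linarith
  obtain ⟨K2, hK2, hK2L⟩ := small_primes (-(lam : ℤ)) hneg lam L
  have hK1 : ∃ K1 : Finset ℕ, (∀ p ∈ K1, p.Prime) ∧ L ≤ ∑ p ∈ K1, 1 / (p : ℝ) ∧
      (¬ IsSquare lam → ∀ p ∈ K1, p.Prime ∧ lam < p ∧ ¬ (p : ℤ) ∣ (lam : ℤ) ∧ p ≠ 2 ∧
        ¬ IsSquare (((lam : ℤ) : ℤ) : ZMod p)) := by
    by_cases hsq : IsSquare lam
    · exact ⟨K2, fun p hp => (hK2 p hp).1, hK2L, fun h => absurd hsq h⟩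
    · have hpos : ¬ IsSquare (lam : ℤ) := by
        intro h
        exact hsq (by simpa using (Int.isSquare_natCast_iff).mp h)
      obtain ⟨K1, h1, h2⟩ := small_primes (lam : ℤ) hpos lam L
      exact ⟨K1, fun p hp => (h1 p hp).1, h2, fun _ => h1⟩
  obtain ⟨K1, hK1p, hK1L, hK1⟩ := hK1
  set C : ℝ := ∏ p ∈ K1, ((p ^ 2 : ℕ) : ℝ) + ∏ p ∈ K2, ((p ^ 2 : ℕ) : ℝ) + (lam + 2) with hC
  obtain ⟨X0, hX0⟩ := exists_nat_gt (8 * C / ε)
  refine ⟨X0 + 1, fun X hX => ?_⟩
  have hXpos : (0 : ℝ) < X := by exact_mod_cast (by omega : 0 < X)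
  -- covering
  have hcov : ((range X).filter fun k => ∃ (v : ℕ) (B : Fin v → Finset (Fin v)),
        2 ≤ k ∧ k < v ∧ (∀ i, (B i).card = k) ∧
        (∀ x y : Fin v, x ≠ y →
          (Finset.univ.filter (fun i => x ∈ B i ∧ y ∈ B i)).card = lam) ∧
        (¬ IsSquare lam ∨ v % 4 ≠ 1)) ⊆
      range (lam + 2) ∪
      (((range X).filter fun n => ∀ p ∈ K1, ¬ (p ∣ n ∧ ¬ p ^ 2 ∣ n)).image (· + lam) ∪
       ((range X).filter fun n => ∀ p ∈ K2, ¬ (p ∣ n ∧ ¬ p ^ 2 ∣ n)).image (· + lam)) := by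
    intro k hk
    simp only [Finset.mem_filter, Finset.mem_range] at hk
    obtain ⟨hkX, v, B, hk2, hkv, hBk, hBp, hor⟩ := hk
    by_cases hsmall : k < lam + 2
    · exact Finset.mem_union_left _ (Finset.mem_range.mpr hsmall)
    refine Finset.mem_union_right _ ?_
    have hkl : lam + 2 ≤ k := by omega
    obtain ⟨hr, hkk⟩ := repl v k lam (by omega) hlam B hBk hBp
    have hkv2 : k + 2 ≤ v := by
      by_contra hcon
      have hv : v = k + 1 := by omega
      subst hv
      have h1 : k * k = lam * k + k := by simpa using hkk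
      have h2 : k * k = (lam + 1) * k := by rw [h1]; ring
      have h3 : k = lam + 1 := Nat.eq_of_mul_eq_mul_right (by omega) h2
      omega
    have hdes : IsSymmetricDesign v k lam := ⟨hkv, k, B, hBk, hr, hBp⟩
    have hbrc := fun (p : ℕ) (hp : p.Prime) (hp2 : p ≠ 2) (h1 : p ∣ k - lam)
      (h2 : ¬ p ^ 2 ∣ k - lam) (h3 : ¬ p ∣ lam) =>
      brc_local hdes hk2 hkv2 hp hp2 h1 h2 h3
    by_cases hv1 : v % 4 = 1
    · -- lam nonsquare
      have hns : ¬ IsSquare lam := by
        rcases hor with h | h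
        · exact h
        · exact absurd hv1 h
      refine Finset.mem_union_left _ ?_
      rw [Finset.mem_image]
      refine ⟨k - lam, ?_, by omega⟩
      simp only [Finset.mem_filter, Finset.mem_range]
      refine ⟨by omega, fun p hp hcon => ?_⟩
      obtain ⟨hpp, hlp, -, hp2, hnsq⟩ := hK1 hns p hp
      have h3 : ¬ p ∣ lam := fun h => by
        have := Nat.le_of_dvd (by omega) h; omega
      obtain ⟨-, hsq⟩ := hbrc p hpp hp2 hcon.1 hcon.2 h3
      have he : Even ((v - 1) / 2) := ⟨v / 4, by omega⟩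
      rw [he.neg_one_pow, one_mul] at hsq
      exact hnsq hsq
    · refine Finset.mem_union_right _ ?_
      rw [Finset.mem_image]
      refine ⟨k - lam, ?_, by omega⟩
      simp only [Finset.mem_filter, Finset.mem_range]
      refine ⟨by omega, fun p hp hcon => ?_⟩
      obtain ⟨hpp, hlp, -, hp2, hnsq⟩ := hK2 p hp
      have h3 : ¬ p ∣ lam := fun h => by
        have := Nat.le_of_dvd (by omega) h; omega
      obtain ⟨hvodd, hsq⟩ := hbrc p hpp hp2 hcon.1 hcon.2 h3
      have ho : Odd ((v - 1) / 2) := ⟨v / 4, by omega⟩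
      rw [ho.neg_one_pow, neg_one_mul] at hsq
      exact hnsq hsq
  have hcard := Finset.card_le_card hcov
  have hcard2 : (((range X).filter fun k => ∃ (v : ℕ) (B : Fin v → Finset (Fin v)),
        2 ≤ k ∧ k < v ∧ (∀ i, (B i).card = k) ∧
        (∀ x y : Fin v, x ≠ y →
          (Finset.univ.filter (fun i => x ∈ B i ∧ y ∈ B i)).card = lam) ∧
        (¬ IsSquare lam ∨ v % 4 ≠ 1)).card : ℝ) ≤ (lam + 2) +
      ((X * Real.exp (-(1 / 2 * ∑ p ∈ K1, 1 / (p : ℝ))) + ∏ p ∈ K1, ((p ^ 2 : ℕ) : ℝ)) +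
       (X * Real.exp (-(1 / 2 * ∑ p ∈ K2, 1 / (p : ℝ))) + ∏ p ∈ K2, ((p ^ 2 : ℕ) : ℝ))) := by
    refine (Nat.cast_le.mpr hcard).trans ?_
    refine (Nat.cast_le.mpr (Finset.card_union_le _ _)).trans ?_
    rw [Nat.cast_add, Finset.card_range]
    push_cast
    refine add_le_add le_rfl ?_
    refine (Nat.cast_le.mpr (Finset.card_union_le _ _)).trans ?_
    rw [Nat.cast_add]
    refine add_le_add ?_ ?_
    · refine (Nat.cast_le.mpr Finset.card_image_le).trans ?_
      exact_mod_cast sieve K1 hK1p X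
    · refine (Nat.cast_le.mpr Finset.card_image_le).trans ?_
      exact_mod_cast sieve K2 (fun p hp => (hK2 p hp).1) X
  have hexp : ∀ K : Finset ℕ, L ≤ ∑ p ∈ K, 1 / (p : ℝ) →
      Real.exp (-(1 / 2 * ∑ p ∈ K, 1 / (p : ℝ))) ≤ ε / 8 := by
    intro K hKL
    refine le_trans (Real.exp_le_exp.mpr ?_) hL.le
    linarith
  have hC0 : 0 ≤ C := by
    rw [hC]; positivity
  have hXC : C ≤ ε / 8 * X := by
    have h1 : 8 * C / ε < X := hX0.trans_le (by exact_mod_cast (by omega : X0 ≤ X))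
    rw [div_lt_iff₀ hε] at h1
    linarith
  have h1 := mul_le_mul_of_nonneg_left (hexp K1 hK1L) hXpos.le
  have h2 := mul_le_mul_of_nonneg_left (hexp K2 hK2L) hXpos.le
  rw [Real.dist_eq, sub_zero, abs_of_nonneg (by positivity), div_lt_iff₀ hXpos]
  have h3 : (0:ℝ) < ε * X := by positivity
  linarith

end Pool.Agent.Results.MP_c38931_co.DensityZero
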