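import Mathlib
import Pool.Agent.H189R2.Hall.Grp

set_option autoImplicit false

namespace Pool.Agent.Results.MP_c38931_co.DihedralQuotient

open Finset Matrix Pool.Agent.H189R2.Hall

/-- counting flags: every point of a symmetric design lies on exactly `k` blocks -/
theorem repl (v k lam : ℕ) (hv : 2 ≤ v) (hlam : 1 ≤ lam) (B : Fin v → Finset (Fin v))
    (hk : ∀ i, (B i).card = k)
    (hp : ∀ x y : Fin v, x ≠ y →
      (Finset.univ.filter (fun i => x ∈ B i ∧ y ∈ B i)).card = lam) :
    (∀ x, (Finset.univ.filter (fun i => x ∈ B i)).card = k) ∧ k * k = lam * (v - 1) + k := by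
  classical
  -- for every x : sum over i of [x in B i] * |B i| = r_x + lam (v-1)
  have h1 : ∀ x, (Finset.univ.filter (fun i => x ∈ B i)).card * k
      = (Finset.univ.filter (fun i => x ∈ B i)).card + lam * (v - 1) := by
    intro x
    have e1 : ∑ y : Fin v, (Finset.univ.filter (fun i => x ∈ B i ∧ y ∈ B i)).card
        = (Finset.univ.filter (fun i => x ∈ B i)).card * k := by
      simp_rw [Finset.card_filter]
      rw [Finset.sum_comm, Finset.sum_mul]
      refine Finset.sum_congr rfl fun i _ => ?_
      by_cases hx : x ∈ B i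
      · simp [hx, hk i]
      · simp [hx]
    rw [← e1, ← Finset.add_sum_erase _ _ (Finset.mem_univ x)]
    congr 1
    · simp
    · rw [Finset.sum_congr rfl (g := fun _ => lam)]
      · simp [Finset.card_erase_of_mem, mul_comm]
      · intro y hy
        exact hp x y (Finset.ne_of_mem_erase hy).symm
  have hpos : 1 ≤ lam * (v - 1) := by
    have : 1 ≤ v - 1 := by omega
    exact Nat.mul_pos hlam this
  set r : Fin v → ℕ := fun x => (Finset.univ.filter (fun i => x ∈ B i)).card with hr
  have hk2 : 2 ≤ k := by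
    by_contra hcon
    have h2 := h1 ⟨0, by omega⟩
    interval_cases k <;> simp at h2 <;> omega
  have hconst : ∀ x y, r x = r y := by
    intro x y
    have hx := h1 x
    have hy := h1 y
    obtain ⟨k', rfl⟩ : ∃ k', k = k' + 1 := ⟨k - 1, by omega⟩
    have hx' : r x * k' = lam * (v - 1) := by
      have : r x * (k' + 1) = r x + lam * (v - 1) := hx
      rw [mul_add, mul_one] at this; omega
    have hy' : r y * k' = lam * (v - 1) := by
      have : r y * (k' + 1) = r y + lam * (v - 1) := hy
      rw [mul_add, mul_one] at this; omega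
    have : r x * k' = r y * k' := by rw [hx', hy']
    exact Nat.eq_of_mul_eq_mul_right (by omega) this
  have hsum : ∑ x, r x = v * k := by
    simp only [hr]
    simp_rw [Finset.card_filter]
    rw [Finset.sum_comm]
    rw [Finset.sum_congr rfl (g := fun _ => k)]
    · simp
    · intro i _
      rw [← hk i]; simp
  have hrk : ∀ x, r x = k := by
    intro x
    have : ∑ y, r y = v * r x := by
      rw [Finset.sum_congr rfl (g := fun _ => r x) (fun y _ => hconst y x)]; simp
    rw [this] at hsum
    exact Nat.eq_of_mul_eq_mul_left (by omega) hsum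
  refine ⟨hrk, ?_⟩
  have h2 := h1 ⟨0, by omega⟩
  have h3 := hrk ⟨0, by omega⟩
  simp only [hr] at h3
  rw [h3] at h2
  omega

/-- Symmetric designs with a regular automorphism group having a generalized dihedral quotient with
kernel of order at most `c`: the number of points is bounded in terms of `lam` and `c`. -/
theorem result (lam c : ℕ) (hlam : 1 ≤ lam) (v k : ℕ) (B : Fin v → Finset (Fin v))
    (hk : ∀ i, (B i).card = k)
    (hp : ∀ x y : Fin v, x ≠ y →
      (Finset.univ.filter (fun i => x ∈ B i ∧ y ∈ B i)).card = lam)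
    (G : Type) [Group G] [MulAction G (Fin v)]
    (hreg : ∀ x y : Fin v, ∃! g : G, g • x = y)
    (haut : ∀ (g : G) (i : Fin v), ∃ j : Fin v, B j = (B i).image (fun x => g • x))
    (Q : Type) [Group Q] (φ : G →* Q) (hφ : Function.Surjective φ) (hc : Nat.card φ.ker ≤ c)
    (M : Subgroup Q) (hM : M.index = 2) (hdih : ∀ q : Q, q ∉ M → q * q = 1) :
    v ≤ (4 * lam ^ 6 * c ^ 2 + lam) ^ 2 := by
  classical
  have hB1 : 1 ≤ 4 * lam ^ 6 * c ^ 2 + lam := by omega
  by_cases hv : v ≤ 1
  · exact hv.trans (one_le_pow₀ hB1)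
  have hv2 : 2 ≤ v := by omega
  obtain ⟨hr, hkk⟩ := repl v k lam hv2 hlam B hk hp
  by_cases hkl : k ≤ lam
  · -- degenerate
    have h1 : k * k ≤ lam * k := Nat.mul_le_mul_right k hkl
    have hk1 : 1 ≤ k := by
      by_contra h0
      have : k = 0 := by omega
      subst this
      have : lam * (v - 1) = 0 := by omega
      have h2 : 0 < lam * (v - 1) := Nat.mul_pos hlam (by omega)
      omega
    have h3 : lam * (v - 1) ≤ lam * (k - 1) := by
      obtain ⟨k', rfl⟩ : ∃ k', k = k' + 1 := ⟨k - 1, by omega⟩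
      simp only [Nat.add_sub_cancel]
      have h5 : lam * (v - 1) = (k' + 1) * k' := by
        have : (k' + 1) * (k' + 1) = (k' + 1) * k' + (k' + 1) := by ring
        omega
      rw [h5]
      exact Nat.mul_le_mul_right k' hkl
    have h4 : v - 1 ≤ k - 1 := Nat.le_of_mul_le_mul_left h3 hlam
    have h5 : v ≤ lam := by omega
    calc v ≤ lam := h5
      _ ≤ 4 * lam ^ 6 * c ^ 2 + lam := by omega
      _ ≤ (4 * lam ^ 6 * c ^ 2 + lam) ^ 2 := by nlinarith
  have hkl' : lam < k := by omega
  have hv0 : 0 < v := by omega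
  let x0 : Fin v := ⟨0, hv0⟩
  -- finiteness of the group
  let eG : G ≃ Fin v := Equiv.ofBijective (fun g => g • x0) (by
    constructor
    · intro g h hgh
      obtain ⟨_, _, hu⟩ := hreg x0 (g • x0)
      rw [hu g rfl, hu h hgh.symm]
    · intro y
      obtain ⟨g, hg, _⟩ := hreg x0 y
      exact ⟨g, hg⟩)
  have : Fintype G := Fintype.ofEquiv _ eG.symm
  have hcardG : Fintype.card G = v := by rw [Fintype.card_congr eG, Fintype.card_fin]
  have : Finite Q := Finite.of_surjective φ hφ
  have : Fintype Q := Fintype.ofFinite Q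
  have hfree : ∀ (g : G) (x : Fin v), g • x = x → g = 1 := by
    intro g x hgx
    obtain ⟨_, _, hu⟩ := hreg x x
    rw [hu g hgx, hu 1 (one_smul _ _)]
  -- incidence matrix
  let A : Matrix (Fin v) (Fin v) ℚ := Matrix.of fun i x => if x ∈ B i then 1 else 0
  let J : Matrix (Fin v) (Fin v) ℚ := Matrix.of fun _ _ => 1
  have hAA : Aᵀ * A = ((k : ℚ) - lam) • (1 : Matrix (Fin v) (Fin v) ℚ) + (lam : ℚ) • J := by
    ext x y
    simp only [A, J, Matrix.mul_apply, Matrix.transpose_apply, Matrix.of_apply, Matrix.add_apply,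
      Matrix.smul_apply, smul_eq_mul, mul_one]
    have e : ∑ i, (if x ∈ B i then (1:ℚ) else 0) * (if y ∈ B i then 1 else 0)
        = ((Finset.univ.filter (fun i => x ∈ B i ∧ y ∈ B i)).card : ℚ) := by
      rw [Finset.card_filter]; push_cast
      refine Finset.sum_congr rfl fun i _ => ?_
      by_cases h1 : x ∈ B i <;> by_cases h2 : y ∈ B i <;> simp [h1, h2]
    rw [e]
    by_cases hxy : x = y
    · subst hxy
      simp only [and_self, Matrix.one_apply_eq, mul_one]
      rw [hr x]; ring
    · rw [hp x y hxy, Matrix.one_apply_ne hxy]; ring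
  have hJJ : J * J = (v : ℚ) • J := by
    ext x y; simp [J, Matrix.mul_apply]
  have hn0 : ((k : ℚ) - lam) > 0 := by
    have : (lam : ℚ) < k := by exact_mod_cast hkl'
    linarith
  have hlq : (1:ℚ) ≤ lam := by exact_mod_cast hlam
  have hvq : (2:ℚ) ≤ v := by exact_mod_cast hv2
  let n : ℚ := (k : ℚ) - lam
  let t : ℚ := lam / (n + lam * v)
  let L : Matrix (Fin v) (Fin v) ℚ := ((1 / n) • ((1 : Matrix (Fin v) (Fin v) ℚ) - t • J)) * Aᵀ
  have hn : 0 < n := hn0
  have hLA : L * A = 1 := by
    have hden : n + lam * v ≠ 0 := by positivity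
    simp only [L]
    rw [Matrix.mul_assoc, hAA, Matrix.smul_mul, sub_mul, one_mul, mul_add, Matrix.mul_smul,
      mul_one, Matrix.mul_smul, Matrix.smul_mul, hJJ]
    ext x y
    simp only [Matrix.smul_apply, Matrix.sub_apply, Matrix.add_apply, smul_eq_mul, J,
      Matrix.of_apply, mul_one]
    have hne : (k : ℚ) - lam = n := rfl
    rw [hne]
    simp only [t]
    field_simp
    ring
  have hAL : A * L = 1 := mul_eq_one_comm.mp hLA
  have hBinj : Function.Injective B := by
    intro i j hij
    by_contra hne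
    have h1 : (A * L) i j = (A * L) j j := by
      simp only [Matrix.mul_apply, A, Matrix.of_apply, hij]
    rw [hAL, Matrix.one_apply_ne hne, Matrix.one_apply_eq] at h1
    exact zero_ne_one h1
  -- nonidentity elements fix no block
  have himg : ∀ (g : G) (S : Finset (Fin v)) (x : Fin v),
      x ∈ S.image (fun x => g • x) ↔ g⁻¹ • x ∈ S := by
    intro g S x
    rw [Finset.mem_image]
    constructor
    · rintro ⟨y, hy, rfl⟩; simpa using hy
    · intro h; exact ⟨g⁻¹ • x, h, by simp⟩
  have hblk : ∀ (g : G), g ≠ 1 → ∀ i, (B i).image (fun x => g • x) ≠ B i := by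
    intro g hg i0 hfix
    choose σ hσ using haut g
    let R : Matrix (Fin v) (Fin v) ℚ := Matrix.of fun i j => if σ i = j then 1 else 0
    let P : Matrix (Fin v) (Fin v) ℚ := Matrix.of fun y x => if y = g⁻¹ • x then 1 else 0
    have hRA : R * A = A * P := by
      ext i x
      simp only [R, P, A, Matrix.mul_apply, Matrix.of_apply]
      rw [Finset.sum_eq_single (σ i), Finset.sum_eq_single (g⁻¹ • x)]
      · simp only [if_true, one_mul, mul_one]
        rw [hσ i]
        simp only [himg]
      · intro y _ hy; simp [hy]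
      · intro h; exact absurd (Finset.mem_univ _) h
      · intro y _ hy; simp [Ne.symm hy]
      · intro h; exact absurd (Finset.mem_univ _) h
    have htr : R.trace = P.trace := by
      have : R = (A * P) * L := by
        rw [← hRA, Matrix.mul_assoc, hAL, mul_one]
      rw [this, Matrix.trace_mul_comm, ← Matrix.mul_assoc, hLA, one_mul]
    have hP0 : P.trace = 0 := by
      simp only [Matrix.trace, P, Matrix.diag_apply, Matrix.of_apply]
      refine Finset.sum_eq_zero fun x _ => ?_
      rw [if_neg]
      intro h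
      have : g⁻¹ = 1 := hfree g⁻¹ x h.symm
      exact hg (inv_eq_one.mp this)
    have hR1 : (1:ℚ) ≤ R.trace := by
      have h1 : σ i0 = i0 := hBinj (by rw [hσ i0, hfix])
      simp only [Matrix.trace, R, Matrix.diag_apply, Matrix.of_apply]
      have : (if σ i0 = i0 then (1:ℚ) else 0) ≤ ∑ i, if σ i = i then (1:ℚ) else 0 :=
        Finset.single_le_sum (f := fun i => if σ i = i then (1:ℚ) else 0)
          (fun i _ => by split_ifs <;> norm_num) (Finset.mem_univ i0)
      rw [if_pos h1] at this
      exact this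
    rw [htr, hP0] at hR1
    norm_num at hR1
  -- every block is a translate of the block `i0`
  let i0 : Fin v := ⟨0, hv0⟩
  choose f hf using fun g : G => haut g i0
  have hfinj : Function.Injective f := by
    intro g h hgh
    have h1 : (B i0).image (fun x => g • x) = (B i0).image (fun x => h • x) := by
      rw [← hf g, ← hf h, hgh]
    by_contra hne
    have h2 : h⁻¹ * g ≠ 1 := by
      intro h3; exact hne (by rw [inv_mul_eq_one] at h3; exact h3.symm)
    apply hblk _ h2 i0
    ext x
    rw [himg]
    have h3 : h • x ∈ (B i0).image (fun x => g • x) ↔ h • x ∈ (B i0).image (fun x => h • x) := by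
      rw [h1]
    rw [himg, himg] at h3
    simpa [mul_smul] using h3
  have hfbij : Function.Bijective f :=
    (Fintype.bijective_iff_injective_and_card f).mpr ⟨hfinj, by rw [hcardG, Fintype.card_fin]⟩
  -- the difference set
  let D : Finset G := Finset.univ.filter (fun g => g⁻¹ • x0 ∈ B i0)
  have hDcard : D.card = k := by
    rw [← hk i0]
    refine Finset.card_bij (fun g _ => g⁻¹ • x0) ?_ ?_ ?_
    · intro g hg; exact (Finset.mem_filter.mp hg).2
    · intro g _ h _ hgh
      obtain ⟨_, _, hu⟩ := hreg x0 (g⁻¹ • x0)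
      have : g⁻¹ = h⁻¹ := by rw [hu g⁻¹ rfl, hu h⁻¹ hgh.symm]
      exact inv_injective this
    · intro y hy
      obtain ⟨g, hg, _⟩ := hreg x0 y
      refine ⟨g⁻¹, ?_, by simp [hg]⟩
      simp only [D, Finset.mem_filter, Finset.mem_univ, true_and, inv_inv, hg]
      exact hy
  have hDdiff : ∀ g : G, g ≠ 1 →
      (∑ d ∈ D, ∑ e ∈ D, if d * e⁻¹ = g then (1:ℤ) else 0) = (lam : ℤ) := by
    intro g hg
    have hx : g⁻¹ • x0 ≠ x0 := by
      intro h
      exact hg (inv_eq_one.mp (hfree _ _ h))
    rw [← hp x0 (g⁻¹ • x0) hx.symm]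
    rw [Finset.sum_comm]
    have e1 : ∀ e ∈ D, (∑ d ∈ D, if d * e⁻¹ = g then (1:ℤ) else 0)
        = if g * e ∈ D then 1 else 0 := by
      intro e _
      simp only [mul_inv_eq_iff_eq_mul]
      rw [Finset.sum_ite_eq']
    rw [Finset.sum_congr rfl e1, ← Finset.sum_filter, Finset.sum_const, nsmul_eq_mul, mul_one]
    congr 1
    refine Finset.card_bij (fun e _ => f e) ?_ ?_ ?_
    · intro e he
      simp only [Finset.mem_filter, D, Finset.mem_univ, true_and] at he ⊢
      rw [hf e, himg, himg]
      refine ⟨he.1, ?_⟩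
      have := he.2
      rw [_root_.mul_inv_rev, mul_smul] at this
      exact this
    · intro a _ b _ hab; exact hfinj hab
    · intro i hi
      obtain ⟨e, rfl⟩ := hfbij.2 i
      refine ⟨e, ?_, rfl⟩
      simp only [Finset.mem_filter, D, Finset.mem_univ, true_and] at hi ⊢
      rw [hf e, himg, himg] at hi
      refine ⟨hi.1, ?_⟩
      rw [_root_.mul_inv_rev, mul_smul]
      exact hi.2
  obtain ⟨m, hm1, hm2⟩ := dihedral_bound φ hφ D lam (by exact_mod_cast hlam)
    (by rw [hDcard]; exact_mod_cast hkl') hDdiff M hM hdih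
  rw [hDcard] at hm1
  have hm3 : |m| ≤ 2 * (lam:ℤ) ^ 3 * c := by
    refine hm2.trans ?_
    have : (Nat.card φ.ker : ℤ) ≤ c := by exact_mod_cast hc
    exact mul_le_mul_of_nonneg_left this (by positivity)
  have hm4 : m ^ 2 ≤ (2 * (lam:ℤ) ^ 3 * c) ^ 2 := sq_le_sq.mpr (by
    rw [abs_of_nonneg (by positivity : (0:ℤ) ≤ 2 * (lam:ℤ) ^ 3 * c)]; exact hm3)
  have hk5 : k ≤ 4 * lam ^ 6 * c ^ 2 + lam := by
    have : (k : ℤ) ≤ 4 * lam ^ 6 * c ^ 2 + lam := by
      rw [hm1]; nlinarith
    exact_mod_cast this
  have hvk : v ≤ k ^ 2 := by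
    have h1 : v - 1 ≤ lam * (v - 1) := Nat.le_mul_of_pos_left _ hlam
    have h2 : 1 ≤ k := by omega
    rw [sq]
    omega
  exact hvk.trans (Nat.pow_le_pow_left hk5 2)

end Pool.Agent.Results.MP_c38931_co.DihedralQuotient
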