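import Mathlib
import Pool.Agent.H951R4.OD.Final

set_option autoImplicit false

namespace Pool.Agent.Results.MP_c38931_co.RegularDesigns

/-- The blocks `B i` (`i : Fin v`) form a symmetric `2-(v, k, lam)` design on the points `Fin v`
with `2 ≤ k < v`, and `H` is a group of automorphisms of the design acting regularly (sharply
transitively) on the points. -/
structure IsRegularSymmetricDesign (v k lam : ℕ) (B : Fin v → Finset (Fin v))
    (H : Subgroup (Equiv.Perm (Fin v))) : Prop where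
  two_le : 2 ≤ k
  lt : k < v
  size : ∀ i, (B i).card = k
  pair : ∀ x y : Fin v, x ≠ y →
    (Finset.univ.filter (fun i => x ∈ B i ∧ y ∈ B i)).card = lam
  regular : ∀ x y : Fin v, ∃! h : Equiv.Perm (Fin v), h ∈ H ∧ h x = y
  aut : ∀ h ∈ H, ∀ i, ∃ j, (B i).image h = B j

/-- For all `lam ≥ 1` and `ε > 0` there is `C` such that for all `X ≥ 3` at most
`C X (log X) ^ (ε - 1)` integers `k ≤ X` are block sizes of symmetric `2-(v, k, lam)` designs with
`2 ≤ k < v` having a group of automorphisms that acts regularly on the points. -/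
theorem result (lam : ℕ) (hlam : 1 ≤ lam) (ε : ℝ) (hε : 0 < ε) :
    ∃ C : ℝ, 0 < C ∧ ∀ X : ℕ, 3 ≤ X →
      ({k : ℕ | k ≤ X ∧ ∃ (v : ℕ) (B : Fin v → Finset (Fin v))
        (H : Subgroup (Equiv.Perm (Fin v))), IsRegularSymmetricDesign v k lam B H}.ncard : ℝ) ≤
      C * X * (Real.log X) ^ (ε - 1) := by
  obtain ⟨C, hC, h⟩ := Pool.Agent.H951R4.OD.design_count_le lam hlam ε hε
  refine ⟨C, hC, fun X hX => le_trans ?_ (h X hX)⟩
  have hfin : {k : ℕ | k ≤ X ∧ ∃ (v : ℕ) (B : Fin v → Finset (Fin v))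
        (H : Subgroup (Equiv.Perm (Fin v))), 2 ≤ k ∧
          Pool.Agent.H951R4.OD.RegDesign v k lam B H}.Finite :=
    (Set.finite_Iic X).subset fun n hn => hn.1
  exact_mod_cast Set.ncard_le_ncard (fun k hk => by
    obtain ⟨h1, v, B, H, hd⟩ := hk
    exact ⟨h1, v, B, H, hd.two_le, ⟨hd.lt, hd.size, hd.pair, hd.regular, hd.aut⟩⟩) hfin

end Pool.Agent.Results.MP_c38931_co.RegularDesigns
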