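import Pool.Agent.H607R2.BW.DES

/-!
# Symmetric designs of small width
-/

namespace Pool.Agent.Results.MP_c38931_co.SmallWidth

open Pool.Agent.H607R2.BW

theorem result :
    (∀ (lam a m w v k : ℕ) (B : Fin v → Finset (Fin v)) (p b : Fin v → Str m),
      (∀ i, (B i).card = k) →
      (∀ x y : Fin v, x ≠ y →
        (Finset.univ.filter (fun i => x ∈ B i ∧ y ∈ B i)).card = lam) →
      Function.Injective p → Function.Injective b →
      HasWidth w (fun x : Fin 2 → Str m => ∃ i j, i ∈ B j ∧ x 0 = p i ∧ x 1 = b j) →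
      lam + 1 ≤ 2 ^ a → v * k ≤ 2 ^ m * (w * (1 + 2 * w * m) ^ a)) ∧
    (∀ lam w : ℕ, 1 ≤ lam → ∃ M : ℕ,
      ∀ (m v k : ℕ) (B : Fin v → Finset (Fin v)) (p b : Fin v → Str m),
      2 ^ m ≤ 2 * v → (∀ i, (B i).card = k) →
      (∀ x y : Fin v, x ≠ y →
        (Finset.univ.filter (fun i => x ∈ B i ∧ y ∈ B i)).card = lam) →
      Function.Injective p → Function.Injective b →
      HasWidth w (fun x : Fin 2 → Str m => ∃ i j, i ∈ B j ∧ x 0 = p i ∧ x 1 = b j) →
      v ≤ M) ∧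
    (∀ (lam a : ℕ) (c : ℝ), 1 ≤ lam → lam + 1 ≤ 2 ^ a → 0 ≤ c → ((a : ℝ) + 1) * c < 1 / 2 →
      ∃ m₀ : ℕ, ∀ (m w v k : ℕ) (B : Fin v → Finset (Fin v)) (p b : Fin v → Str m),
      m₀ ≤ m → 2 ^ m ≤ 2 * v → (∀ i, (B i).card = k) →
      (∀ x y : Fin v, x ≠ y →
        (Finset.univ.filter (fun i => x ∈ B i ∧ y ∈ B i)).card = lam) →
      Function.Injective p → Function.Injective b →
      HasWidth w (fun x : Fin 2 → Str m => ∃ i j, i ∈ B j ∧ x 0 = p i ∧ x 1 = b j) →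
      ((2 : ℝ) ^ m) ^ c < w) := by
  refine ⟨?_, ?_, ?_⟩
  · intro lam a m w v k B p b hk hl hp hb hw ha
    exact DES_main lam a m w v k B p b hk hl hp hb hw ha
  · intro lam w hl
    exact DES_finite lam w hl
  · intro lam a c hl ha hc hac
    exact DES_width lam a c hl ha hc hac

end Pool.Agent.Results.MP_c38931_co.SmallWidth
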